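import Pool.Agent.Q271.LD2.Main2

set_option autoImplicit false

/-!
# Sign vectors for real matrices with bounded row and column `ℓ¹` norms

There is an absolute constant `C` such that for all reals `Δ ≤ R` and every real `n × m` matrix
`V` with entries of absolute value at most one, row `ℓ¹` norms at most `R` and column `ℓ¹` norms
at most `Δ`, some `y ∈ {-1, 1}^m` has `‖V y‖_∞ ≤ C √R`.
-/

namespace Pool.Agent.Results.MP_aa9902_co.SignsForRealMatrices

theorem result :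
    ∃ C : ℝ, 0 < C ∧ ∀ (n m : ℕ) (R Δ : ℝ), Δ ≤ R → ∀ V : Fin n → Fin m → ℝ,
      (∀ i j, |V i j| ≤ 1) → (∀ i, ∑ j, |V i j| ≤ R) → (∀ j, ∑ i, |V i j| ≤ Δ) →
      ∃ y : Fin m → ℝ, (∀ j, y j = 1 ∨ y j = -1) ∧
        ∀ i, |∑ j, V i j * y j| ≤ C * Real.sqrt R := by
  obtain ⟨C, hC, h⟩ := Pool.Agent.Q271.LD2.flat
  refine ⟨max C 1, lt_of_lt_of_le hC (le_max_left _ _), ?_⟩
  intro n m R Δ hΔ V hV hrow hcol
  by_cases hR : 1 ≤ R
  · have hR0 : 0 < R := by linarith
    have hp : 0 < R ^ (-(1/2) : ℝ) := Real.rpow_pos_of_pos hR0 _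
    have hprod : R * R ^ (-(1/2) : ℝ) = R ^ (1/2 : ℝ) := by
      nth_rewrite 1 [← Real.rpow_one R]
      rw [← Real.rpow_add hR0]; norm_num
    have habs : ∀ i j, |V i j * R ^ (-(1/2) : ℝ)| = |V i j| * R ^ (-(1/2) : ℝ) := by
      intro i j
      rw [abs_mul, abs_of_pos hp]
    obtain ⟨y, hy1, hy2⟩ := h R hR (Fin m) (Fin n) (fun i j => V i j * R ^ (-(1/2) : ℝ))
      (fun i j => by
        rw [habs]
        exact mul_le_of_le_one_left hp.le (hV i j))
      (fun i => by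
        simp only [habs]
        rw [← Finset.sum_mul, ← hprod]
        exact mul_le_mul_of_nonneg_right (hrow i) hp.le)
      (fun j => by
        simp only [habs]
        rw [← Finset.sum_mul, ← hprod]
        exact mul_le_mul_of_nonneg_right ((hcol j).trans hΔ) hp.le)
    refine ⟨y, hy1, fun i => ?_⟩
    have h1 := hy2 i
    have h2 : ∑ j, V i j * R ^ (-(1/2) : ℝ) * y j = (∑ j, V i j * y j) * R ^ (-(1/2) : ℝ) := by
      rw [Finset.sum_mul]
      exact Finset.sum_congr rfl fun j _ => by ring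
    rw [h2, abs_mul, abs_of_pos hp] at h1
    have h3 : R ^ (-(1/2) : ℝ) * R ^ (1/2 : ℝ) = 1 := by
      rw [← Real.rpow_add hR0]; norm_num
    have h4 : 0 < R ^ (1/2 : ℝ) := Real.rpow_pos_of_pos hR0 _
    rw [Real.sqrt_eq_rpow]
    calc |∑ j, V i j * y j| = (|∑ j, V i j * y j| * R ^ (-(1/2) : ℝ)) * R ^ (1/2 : ℝ) := by
          rw [mul_assoc, h3, mul_one]
      _ ≤ C * R ^ (1/2 : ℝ) := mul_le_mul_of_nonneg_right h1 h4.le
      _ ≤ max C 1 * R ^ (1/2 : ℝ) := mul_le_mul_of_nonneg_right (le_max_left _ _) h4.le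
  · have hR1 : R < 1 := not_le.1 hR
    refine ⟨fun _ => 1, fun _ => Or.inl rfl, fun i => ?_⟩
    have h0 : 0 ≤ R := (Finset.sum_nonneg fun j _ => abs_nonneg _).trans (hrow i)
    have h1 : R ≤ Real.sqrt R := by
      apply Real.le_sqrt_of_sq_le
      nlinarith
    have h2 : |∑ j, V i j * 1| ≤ R := by
      refine (Finset.abs_sum_le_sum_abs _ _).trans ?_
      simpa using hrow i
    have h3 : 0 ≤ Real.sqrt R := Real.sqrt_nonneg R
    calc |∑ j, V i j * 1| ≤ Real.sqrt R := h2.trans h1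
      _ = 1 * Real.sqrt R := (one_mul _).symm
      _ ≤ max C 1 * Real.sqrt R := mul_le_mul_of_nonneg_right (le_max_right _ _) h3

end Pool.Agent.Results.MP_aa9902_co.SignsForRealMatrices
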